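import Pool.Agent.Y18.BSD.Eleven

/-!
# Root numbers of the twists of the newform of `X_0(11)` by all quadratic characters
-/

set_option autoImplicit false

open Complex Filter Topology Set UpperHalfPlane MatrixGroups CongruenceSubgroup ZMod

namespace Pool.Agent.Y699.RN

open Pool.Agent.TH940 (Fr coeff_bd mellin2)
open Pool.Agent.W440.TW
open Pool.Agent.Y18.BSD (Cf co tm lf ident tm_eq)

/-- the character is equal to its inverse -/
lemma inv_self {q : ℕ} {χ : DirichletCharacter ℂ q} (h : χ ^ 2 = 1) : χ⁻¹ = χ := by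
  rw [inv_eq_iff_mul_eq_one, ← sq, h]

section
variable {N : ℕ} [NeZero N] {k : ℤ}

/-- the relation for characters of conductor prime to the level -/
theorem rel_coprime (f : CuspForm (Gamma0 N : Subgroup (GL (Fin 2) ℝ)) k) (ε : ℝ)
    (hf : W388.IsNewf N k f ε) (q : ℕ) [NeZero q] (χ : DirichletCharacter ℂ q)
    (hχ : χ.IsPrimitive) (h2 : χ ^ 2 = 1) (hco : Nat.Coprime q N) (t : ℝ) (ht : 0 < t) :
    ∑' n : ℕ, χ (n : ZMod q) * (qExpansion 1 f).coeff n *
      (Real.exp (-(2 * Real.pi * n / (Real.sqrt N * q)) / t) : ℂ) =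
    ((ε : ℂ) * χ (-(N : ZMod q))) * (t : ℂ) ^ k *
      ∑' n : ℕ, (starRingEnd ℂ) (χ (n : ZMod q) * (qExpansion 1 f).coeff n) *
        (Real.exp (-(2 * Real.pi * n / (Real.sqrt N * q)) * t) : ℂ) := by
  have hq : (0 : ℝ) < q := Nat.cast_pos.2 (Nat.pos_of_ne_zero (NeZero.ne q))
  have hN : (0 : ℝ) < N := Nat.cast_pos.2 (Nat.pos_of_ne_zero (NeZero.ne N))
  have hsN : 0 < Real.sqrt N := Real.sqrt_pos.2 hN
  have hinv := inv_self h2
  set g := gaussSum χ (stdAddChar (N := q)) with hg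
  have hg0 : g ≠ 0 := gauss_ne_zero χ hχ
  let n0 : (ZMod q)ˣ := ZMod.unitOfCoprime N hco.symm
  have hn0 : ((-n0 : (ZMod q)ˣ) : ZMod q) = -(N : ZMod q) := by
    rw [Units.val_neg]
    simp [n0]
  have h1 : 0 < (1 / (Real.sqrt N * t)) / q := by positivity
  have h2 : 0 < (t / Real.sqrt N) / q := by positivity
  have s1 := hasSum_twist f χ hχ (1 / (Real.sqrt N * t)) h1
  have s2 := hasSum_twist f χ hχ (t / Real.sqrt N) h2
  rw [← hg, hinv] at s1 s2
  have key : (∑ u : (ZMod q)ˣ, χ (u : ZMod q) *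
        f (pt ((((u : ZMod q).val : ℤ) : ℝ) / q) ((1 / (Real.sqrt N * t)) / q) h1)) =
      (ε : ℂ) * (t : ℂ) ^ k * χ ((-n0 : (ZMod q)ˣ) : ZMod q) *
      (∑ u : (ZMod q)ˣ, χ (u : ZMod q) *
        f (pt ((((u : ZMod q).val : ℤ) : ℝ) / q) ((t / Real.sqrt N) / q) h2)) := by
    rw [← Equiv.sum_comp ((Equiv.mulLeft (-n0)).trans (Equiv.inv (ZMod q)ˣ))
      (fun u : (ZMod q)ˣ => χ (u : ZMod q) *
        f (pt ((((u : ZMod q).val : ℤ) : ℝ) / q) ((t / Real.sqrt N) / q) h2)), Finset.mul_sum]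
    apply Finset.sum_congr rfl
    intro u _
    simp only [Equiv.trans_apply, Equiv.coe_mulLeft, Equiv.inv_apply]
    set v : (ZMod q)ˣ := (-n0 * u)⁻¹ with hv
    have hdvd : (q : ℤ) ∣ (N * ((u : ZMod q).val : ℤ) * ((v : ZMod q).val : ℤ) + 1) := by
      rw [← ZMod.intCast_zmod_eq_zero_iff_dvd]
      push_cast
      rw [ZMod.natCast_zmod_val, ZMod.natCast_zmod_val]
      have h3 : (N : ZMod q) = (n0 : ZMod q) := by simp [n0]
      rw [h3, ← Units.val_mul, ← Units.val_mul]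
      have h4 : n0 * u * v = -1 := by
        rw [hv, mul_inv_rev]
        rw [show (-n0 : (ZMod q)ˣ)⁻¹ = -(n0⁻¹) from inv_neg ..]
        rw [mul_neg, mul_neg]
        group
      rw [h4]
      simp
    obtain ⟨d, hd⟩ := hdvd
    rw [f_pt_flip f ε hf ((u : ZMod q).val : ℤ) ((v : ZMod q).val : ℤ) d (by linarith) t ht h1 h2]
    have h5 : χ (u : ZMod q) = χ ((-n0 : (ZMod q)ˣ) : ZMod q) * χ (v : ZMod q) := by
      conv_lhs => rw [← hinv]
      rw [← map_mul, ← Units.val_mul, MulChar.inv_apply_eq_inv']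
      have h6 : -n0 * v = u⁻¹ := by
        rw [hv, mul_inv_rev]
        rw [mul_comm u⁻¹, mul_inv_cancel_left]
      rw [h6]
      apply inv_eq_of_mul_eq_one_left
      rw [← map_mul, ← Units.val_mul, inv_mul_cancel, Units.val_one, map_one]
    rw [h5]
    ring
  rw [key, hn0] at s1
  set S2 := (∑ u : (ZMod q)ˣ, χ (u : ZMod q) *
        f (pt ((((u : ZMod q).val : ℤ) : ℝ) / q) ((t / Real.sqrt N) / q) h2)) with hS2
  have r1 : HasSum (fun n : ℕ => χ (n : ZMod q) * (qExpansion 1 f).coeff n *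
      (Real.exp (-(2 * Real.pi * n / (Real.sqrt N * q)) / t) : ℂ))
      (g⁻¹ * ((ε : ℂ) * (t : ℂ) ^ k * χ (-(N : ZMod q)) * S2)) := by
    have := s1.mul_left g⁻¹
    refine HasSum.congr_fun' this (fun n => ?_)
    rw [inv_mul_cancel_left₀ hg0]
    congr 4
    field_simp
  have r2 : HasSum (fun n : ℕ => (starRingEnd ℂ) (χ (n : ZMod q) * (qExpansion 1 f).coeff n) *
      (Real.exp (-(2 * Real.pi * n / (Real.sqrt N * q)) * t) : ℂ)) (g⁻¹ * S2) := by
    have := s2.mul_left g⁻¹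
    refine HasSum.congr_fun' this (fun n => ?_)
    rw [inv_mul_cancel_left₀ hg0, map_mul]
    have h6 : (starRingEnd ℂ) (χ (n : ZMod q)) = χ (n : ZMod q) := by
      have h := MulChar.star_apply' χ (n : ZMod q)
      rw [hinv] at h
      exact h
    have h7 : (starRingEnd ℂ) ((qExpansion 1 f).coeff n) = (qExpansion 1 f).coeff n :=
      Complex.conj_eq_iff_im.2 (hf.real n)
    rw [h6, h7]
    congr 4
    field_simp
  rw [r1.tsum_eq, r2.tsum_eq]
  ring

/-- modularity: the conductor is divisible by the level -/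
theorem pt_flip (f : CuspForm (Gamma0 N : Subgroup (GL (Fin 2) ℝ)) k)
    {q : ℕ} [NeZero q] (hNq : N ∣ q) (u v d : ℤ) (hd : q * d - u * v = 1) (t : ℝ) (ht : 0 < t)
    (h1 : 0 < (1 / t) / q) (h2 : 0 < t / q) :
    f (pt ((u : ℝ) / q) ((1 / t) / q) h1) =
      (Complex.I * (t : ℂ)) ^ k * f (pt ((v : ℝ) / q) (t / q) h2) := by
  have hq : (q : ℂ) ≠ 0 := Nat.cast_ne_zero.2 (NeZero.ne q)
  let γ : SL(2, ℤ) := ⟨!![u, -d; (q : ℤ), -v], by
    rw [Matrix.det_fin_two_of]; linarith⟩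
  have hγ : γ ∈ Gamma0 N := by
    rw [Gamma0_mem]
    simp only [γ, Matrix.SpecialLinearGroup.coe_mk, Matrix.of_apply, Matrix.cons_val', Matrix.cons_val_zero,
      Matrix.cons_val_one]
    push_cast
    exact (ZMod.natCast_eq_zero_iff _ _).2 hNq
  set z := pt ((u : ℝ) / q) ((1 / t) / q) h1 with hz
  set z' := pt ((v : ℝ) / q) (t / q) h2 with hz'
  have e1 := SlashInvariantForm.slash_action_eqn_SL'' f hγ z'
  have htc : (t : ℂ) ≠ 0 := Complex.ofReal_ne_zero.2 ht.ne'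
  have hdc : (q : ℂ) * (d : ℂ) - (u : ℂ) * (v : ℂ) = 1 := by exact_mod_cast hd
  have hzc : (z : ℂ) = ((u : ℂ) + (1 / (t : ℂ)) * Complex.I) / q := by
    rw [hz, pt_coe]
    push_cast
    ring
  have hzc' : (z' : ℂ) = ((v : ℂ) + (t : ℂ) * Complex.I) / q := by
    rw [hz', pt_coe]
    push_cast
    ring
  have hD : denom (γ : GL (Fin 2) ℝ) z' = (q : ℂ) * z' + -(v : ℂ) := by
    rw [ModularGroup.denom_apply]
    simp [γ]
  have hD2 : denom (γ : GL (Fin 2) ℝ) z' = Complex.I * (t : ℂ) := by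
    rw [hD, hzc']
    field_simp
    ring
  have hnum : num (γ : GL (Fin 2) ℝ) z' = (u : ℂ) * z' - d := by
    have e00 : (((Matrix.SpecialLinearGroup.map (Int.castRingHom ℝ)) γ) 0 0 : ℝ) = u := by
      rw [Matrix.SpecialLinearGroup.map_apply_coe]
      rfl
    have e01 : (((Matrix.SpecialLinearGroup.map (Int.castRingHom ℝ)) γ) 0 1 : ℝ) = -d := by
      rw [Matrix.SpecialLinearGroup.map_apply_coe]
      show ((Int.castRingHom ℝ) (-d)) = -d
      simp
    have e2 : num (γ : GL (Fin 2) ℝ) z' =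
        ((((Matrix.SpecialLinearGroup.map (Int.castRingHom ℝ)) γ) 0 0 : ℝ) : ℂ) * z' +
        ((((Matrix.SpecialLinearGroup.map (Int.castRingHom ℝ)) γ) 0 1 : ℝ) : ℂ) := by
      simp [num]
    rw [e2, e00, e01]
    push_cast
    ring
  have hact : ((γ • z' : ℍ) : ℂ) = num (γ : GL (Fin 2) ℝ) z' / denom (γ : GL (Fin 2) ℝ) z' := by
    rw [ModularGroup.sl_moeb]
    exact coe_smul_of_det_pos (by simp) z'
  have hzz : (γ • z' : ℍ) = z := by
    apply UpperHalfPlane.ext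
    rw [hact, hnum, hD2, hzc, hzc']
    have hI : Complex.I ^ 2 = -1 := Complex.I_sq
    field_simp
    linear_combination (-1 : ℂ) * hdc - hI
  rw [hzz, hD2] at e1
  exact e1

/-- the relation for characters of conductor divisible by the level -/
theorem rel_dvd (f : CuspForm (Gamma0 N : Subgroup (GL (Fin 2) ℝ)) k)
    (hre : ∀ n, ((qExpansion 1 f).coeff n).im = 0) (q : ℕ) [NeZero q] (hNq : N ∣ q)
    (χ : DirichletCharacter ℂ q) (hχ : χ.IsPrimitive) (h2 : χ ^ 2 = 1) (t : ℝ) (ht : 0 < t) :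
    ∑' n : ℕ, χ (n : ZMod q) * (qExpansion 1 f).coeff n *
      (Real.exp (-(2 * Real.pi * n / q) / t) : ℂ) =
    (Complex.I ^ k * χ (-1)) * (t : ℂ) ^ k *
      ∑' n : ℕ, (starRingEnd ℂ) (χ (n : ZMod q) * (qExpansion 1 f).coeff n) *
        (Real.exp (-(2 * Real.pi * n / q) * t) : ℂ) := by
  have hq : (0 : ℝ) < q := Nat.cast_pos.2 (Nat.pos_of_ne_zero (NeZero.ne q))
  have hinv := inv_self h2
  set g := gaussSum χ (stdAddChar (N := q)) with hg
  have hg0 : g ≠ 0 := gauss_ne_zero χ hχ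
  have h1 : 0 < (1 / t) / q := by positivity
  have h2 : 0 < t / q := by positivity
  have s1 := hasSum_twist f χ hχ (1 / t) h1
  have s2 := hasSum_twist f χ hχ t h2
  rw [← hg, hinv] at s1 s2
  have key : (∑ u : (ZMod q)ˣ, χ (u : ZMod q) *
        f (pt ((((u : ZMod q).val : ℤ) : ℝ) / q) ((1 / t) / q) h1)) =
      (Complex.I ^ k * χ (-1)) * (t : ℂ) ^ k *
      (∑ u : (ZMod q)ˣ, χ (u : ZMod q) *
        f (pt ((((u : ZMod q).val : ℤ) : ℝ) / q) (t / q) h2)) := by
    rw [← Equiv.sum_comp ((Equiv.mulLeft (-1)).trans (Equiv.inv (ZMod q)ˣ))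
      (fun u : (ZMod q)ˣ => χ (u : ZMod q) *
        f (pt ((((u : ZMod q).val : ℤ) : ℝ) / q) (t / q) h2)), Finset.mul_sum]
    apply Finset.sum_congr rfl
    intro u _
    simp only [Equiv.trans_apply, Equiv.coe_mulLeft, Equiv.inv_apply]
    set v : (ZMod q)ˣ := (-1 * u)⁻¹ with hv
    have hdvd : (q : ℤ) ∣ (((u : ZMod q).val : ℤ) * ((v : ZMod q).val : ℤ) + 1) := by
      rw [← ZMod.intCast_zmod_eq_zero_iff_dvd]
      push_cast
      rw [ZMod.natCast_zmod_val, ZMod.natCast_zmod_val]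
      rw [← Units.val_mul]
      have h4 : u * v = -1 := by
        rw [hv, mul_inv_rev]
        simp
      rw [h4]
      simp
    obtain ⟨d, hd⟩ := hdvd
    rw [pt_flip f hNq ((u : ZMod q).val : ℤ) ((v : ZMod q).val : ℤ) d (by linarith) t ht h1 h2]
    have h5 : χ (u : ZMod q) = χ (-1) * χ (v : ZMod q) := by
      conv_lhs => rw [← hinv]
      rw [← map_mul, MulChar.inv_apply_eq_inv']
      have h6 : (-1 : ZMod q) * (v : ZMod q) = ((u⁻¹ : (ZMod q)ˣ) : ZMod q) := by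
        rw [hv]
        rw [mul_inv_rev]
        simp
      rw [h6]
      apply inv_eq_of_mul_eq_one_left
      rw [← map_mul, ← Units.val_mul, inv_mul_cancel, Units.val_one, map_one]
    rw [h5, mul_zpow]
    ring
  rw [key] at s1
  set S2 := (∑ u : (ZMod q)ˣ, χ (u : ZMod q) *
        f (pt ((((u : ZMod q).val : ℤ) : ℝ) / q) (t / q) h2)) with hS2
  have r1 : HasSum (fun n : ℕ => χ (n : ZMod q) * (qExpansion 1 f).coeff n *
      (Real.exp (-(2 * Real.pi * n / q) / t) : ℂ))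
      (g⁻¹ * ((Complex.I ^ k * χ (-1)) * (t : ℂ) ^ k * S2)) := by
    have := s1.mul_left g⁻¹
    refine HasSum.congr_fun' this (fun n => ?_)
    rw [inv_mul_cancel_left₀ hg0]
    congr 4
    field_simp
  have r2 : HasSum (fun n : ℕ => (starRingEnd ℂ) (χ (n : ZMod q) * (qExpansion 1 f).coeff n) *
      (Real.exp (-(2 * Real.pi * n / q) * t) : ℂ)) (g⁻¹ * S2) := by
    have := s2.mul_left g⁻¹
    refine HasSum.congr_fun' this (fun n => ?_)
    rw [inv_mul_cancel_left₀ hg0, map_mul]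
    have h6 : (starRingEnd ℂ) (χ (n : ZMod q)) = χ (n : ZMod q) := by
      have h := MulChar.star_apply' χ (n : ZMod q)
      rw [hinv] at h
      exact h
    have h7 : (starRingEnd ℂ) ((qExpansion 1 f).coeff n) = (qExpansion 1 f).coeff n :=
      Complex.conj_eq_iff_im.2 (hre n)
    rw [h6, h7]
    congr 4
    field_simp
  rw [r1.tsum_eq, r2.tsum_eq]
  ring

end

end Pool.Agent.Y699.RN
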