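import Pool.Agent.Y699.RN.Sg

/-!
# The twisted `L`-functions of the newform of `X_0(11)` and their signs
-/

set_option autoImplicit false

open Complex Filter Topology Set UpperHalfPlane MatrixGroups CongruenceSubgroup ZMod

namespace Pool.Agent.Y699.RN

open Pool.Agent.TH940 (Fr coeff_bd mellin2)
open Pool.Agent.W440.TW
open Pool.Agent.W97.TW (f11)
open Pool.Agent.Y18.BSD (Cf co tm lf ident tm_eq)

/-- the `L`-function with a sign -/
theorem exists_L_of_rel {N : ℕ} [NeZero N] (f : CuspForm (Gamma0 N : Subgroup (GL (Fin 2) ℝ)) 2)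
    (hc : Cf N (co f)) {q : ℕ} [NeZero q] (χ : DirichletCharacter ℂ q) (h2 : χ ^ 2 = 1) (R : ℝ)
    (hR : 1 ≤ R) (w : ℂ) (hw : w = 1 ∨ w = -1)
    (hrel : ∀ t : ℝ, 0 < t → ∑' n : ℕ, χ (n : ZMod q) * (qExpansion 1 f).coeff n *
      (Real.exp (-(2 * Real.pi * n / R) / t) : ℂ) =
      w * (t : ℂ) ^ (2 : ℤ) * ∑' n : ℕ, (starRingEnd ℂ) (χ (n : ZMod q) * (qExpansion 1 f).coeff n) *
        (Real.exp (-(2 * Real.pi * n / R) * t) : ℂ)) :
    ∃ L : ℂ → ℂ, Differentiable ℂ L ∧
      (∀ s : ℂ, 3 / 2 < s.re → L s = ∑' n : ℕ, tm (co f) χ s n) ∧ (w = -1 → L 1 = 0) := by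
  obtain ⟨C, hC0, hC⟩ := coeff_bd f
  obtain ⟨K, -, hK⟩ := mellin2 1 C (by norm_num) (by norm_num)
  have hwn : ‖w‖ = 1 := by rcases hw with h | h <;> simp [h]
  obtain ⟨F, hF1, hF2, hF3, -⟩ := hK (fun n => χ (n : ZMod q) * (qExpansion 1 f).coeff n)
    R hR (by rw [W388.coeff_zero f, mul_zero])
    (fun n hn => by
      rw [norm_mul]
      have h1 := DirichletCharacter.norm_le_one χ (n : ZMod q)
      calc ‖χ (n : ZMod q)‖ * ‖(qExpansion 1 f).coeff n‖ ≤ 1 * ‖(qExpansion 1 f).coeff n‖ :=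
            mul_le_mul_of_nonneg_right h1 (norm_nonneg _)
        _ ≤ _ := by rw [one_mul]; exact hC n hn) w hwn
    (fun t ht => by
      have := hrel t ht
      rw [zpow_ofNat] at this
      exact this)
  have hL : Differentiable ℂ (fun s : ℂ => F (s - 1 / 2)) := hF1.comp (by fun_prop)
  refine ⟨fun s => F (s - 1 / 2), hL, ?_, ?_⟩
  · have h1 : ∀ s : ℂ, 3 / 2 < s.re → LSeriesSummable (fun n => χ (n : ZMod q) * co f n) s := by
      intro s hs
      have h2 := (hc.summable χ hs).of_norm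
      rw [tm_eq hc.zero] at h2
      exact h2
    have h2 := ident (σ0 := 3 / 2) (σ1 := 7 / 2) hL h1 (fun s hs => by
      have h3 : (1 : ℝ) + 2 < (s - 1 / 2 : ℂ).re := by
        rw [Complex.sub_re]
        norm_num
        linarith
      rw [hF2 (s - 1 / 2) h3]
      unfold LSeries
      rw [← tm_eq hc.zero]
      refine tsum_congr fun n => ?_
      unfold tm co
      rw [show (s - 1 / 2 + 1 / 2 : ℂ) = s by ring])
    intro s hs
    show F (s - 1 / 2) = _
    rw [h2 s hs]
    unfold LSeries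
    rw [← tm_eq hc.zero]
  · intro hw1
    have h1 : (1 : ℂ) - 1 / 2 = 1 / 2 := by norm_num
    show F (1 - 1 / 2) = 0
    rw [h1]
    have hpi := Real.pi_pos
    have h3 := hF3 (R / (2 * Real.pi)) (R / (2 * Real.pi)) (by positivity) (by positivity)
      (by field_simp; ring)
    rw [h3, hw1]
    have hinv := inv_self h2
    have e : ∀ n : ℕ, (starRingEnd ℂ) (χ (n : ZMod q) * (qExpansion 1 f).coeff n) =
        χ (n : ZMod q) * (qExpansion 1 f).coeff n := by
      intro n
      have h6 : (starRingEnd ℂ) (χ (n : ZMod q)) = χ (n : ZMod q) := by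
        have h := MulChar.star_apply' χ (n : ZMod q)
        rw [hinv] at h
        exact h
      have h7 : (starRingEnd ℂ) ((qExpansion 1 f).coeff n) = (qExpansion 1 f).coeff n :=
        Complex.conj_eq_iff_im.2 (hc.real n)
      rw [map_mul, h6, h7]
    simp only [e]
    ring

/-- the sign in the functional equation of `L(f ⊗ χ, s)` for the newform `f` of level 11 -/
noncomputable def sg {q : ℕ} (χ : DirichletCharacter ℂ q) : ℂ :=
  if 11 ∣ q then -χ (-1) else χ (-11)

/-- quadratic or trivial characters -/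
lemma val_sq {q : ℕ} {χ : DirichletCharacter ℂ q} (h2 : χ ^ 2 = 1) {a : ZMod q} (ha : IsUnit a) :
    χ a = 1 ∨ χ a = -1 := by
  have h := congrArg (fun ψ : DirichletCharacter ℂ q => ψ a) h2
  simp only [MulChar.one_apply ha] at h
  rw [MulChar.pow_apply' _ two_ne_zero] at h
  have h3 : (χ a - 1) * (χ a + 1) = 0 := by linear_combination h
  rcases mul_eq_zero.1 h3 with h4 | h4
  · exact Or.inl (sub_eq_zero.1 h4)
  · exact Or.inr (eq_neg_of_add_eq_zero_left h4)

theorem sg_val {q : ℕ} [NeZero q] (χ : DirichletCharacter ℂ q) (h2 : χ ^ 2 = 1) :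
    sg χ = 1 ∨ sg χ = -1 := by
  unfold sg
  by_cases h11 : 11 ∣ q
  · rw [if_pos h11]
    rcases val_sq h2 (a := -1) isUnit_neg_one with h | h <;> rw [h] <;> simp
  · rw [if_neg h11]
    have hco : Nat.Coprime 11 q := (Nat.Prime.coprime_iff_not_dvd (by norm_num)).2 h11
    have hu : IsUnit (-(11 : ZMod q)) := by
      rw [IsUnit.neg_iff]
      have := (ZMod.isUnit_iff_coprime 11 q).2 hco
      exact_mod_cast this
    exact val_sq h2 hu

/-- the `L`-function of the twist of the newform of level 11 -/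
theorem exists_L11 {q : ℕ} [NeZero q] (χ : DirichletCharacter ℂ q) (hχ : χ.IsPrimitive)
    (h2 : χ ^ 2 = 1) :
    ∃ L : ℂ → ℂ, Differentiable ℂ L ∧
      (∀ s : ℂ, 3 / 2 < s.re → L s = ∑' n : ℕ, tm (co f11) χ s n) ∧ (sg χ = -1 → L 1 = 0) := by
  have hf := Pool.Agent.Y18.BSD.Eleven.isFormOf
  have hc := hf.cf
  have hnf := Pool.Agent.Y702.M.newf
  have hq1 : (1 : ℝ) ≤ q := by exact_mod_cast Nat.pos_of_ne_zero (NeZero.ne q)
  by_cases h11 : 11 ∣ q
  · have hs : sg χ = -χ (-1) := by unfold sg; rw [if_pos h11]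
    refine exists_L_of_rel f11 hc χ h2 (q : ℝ) hq1 (sg χ) ?_ ?_
    · rw [hs]
      rcases val_sq h2 (a := -1) isUnit_neg_one with h | h <;> rw [h] <;> simp
    · intro t ht
      rw [rel_dvd f11 hnf.real q h11 χ hχ h2 t ht, hs]
      rw [show (Complex.I ^ (2 : ℤ) : ℂ) = -1 by rw [zpow_ofNat, Complex.I_sq], neg_one_mul]
  · have hs : sg χ = χ (-11) := by unfold sg; rw [if_neg h11]
    have hco : Nat.Coprime q 11 :=
      ((Nat.Prime.coprime_iff_not_dvd (by norm_num)).2 h11).symm
    have hu : IsUnit (-(11 : ZMod q)) := by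
      rw [IsUnit.neg_iff]
      have := (ZMod.isUnit_iff_coprime 11 q).2 hco.symm
      exact_mod_cast this
    refine exists_L_of_rel f11 hc χ h2 (Real.sqrt (11 : ℕ) * q) ?_ (sg χ) ?_ ?_
    · have h1 : (1 : ℝ) ≤ Real.sqrt (11 : ℕ) := by rw [Real.one_le_sqrt]; norm_num
      nlinarith
    · rw [hs]
      exact val_sq h2 hu
    · intro t ht
      rw [rel_coprime f11 1 hnf q χ hχ h2 hco t ht, hs]
      simp

/-- the characters: for a quadratic or trivial primitive character `ψ` of modulus `m` and a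
primitive quadratic `χ` with `χ(-1) = -1` and `χ(11) = 1` the signs of `ψ` and of the primitive
character of `χ ψ` are opposite. -/
theorem sg_mul {q m : ℕ} [NeZero q] [NeZero m] (χ : DirichletCharacter ℂ q)
    (ψ : DirichletCharacter ℂ m) (hχ : χ.IsPrimitive) (hχ2 : χ ^ 2 = 1) (hodd : χ (-1) = -1)
    (h11 : χ 11 = 1) (hψ : ψ.IsPrimitive) :
    sg (χ.primitive_mul ψ) = - sg ψ := by
  have hqu : IsCoprime (11 : ℤ) (q : ℤ) := by
    rw [← DirichletCharacter.apply_ne_zero_iff χ]
    push_cast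
    rw [h11]
    exact one_ne_zero
  have hqn : ¬ 11 ∣ q := by
    intro h
    have h1 : IsCoprime (11 : ℤ) (11 : ℤ) := hqu.of_isCoprime_of_dvd_right (by exact_mod_cast h)
    rw [isCoprime_self, Int.isUnit_iff] at h1
    omega
  have hev : ∀ a : ℤ, IsCoprime a (q : ℤ) → IsCoprime a (m : ℤ) →
      χ.primitive_mul ψ a = χ a * ψ a := by
    intro a ha hb
    have hl : IsCoprime a ((Nat.lcm q m : ℕ) : ℤ) := by
      have h3 : IsCoprime a ((q : ℤ) * m) := ha.mul_right hb
      refine h3.of_isCoprime_of_dvd_right ?_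
      exact_mod_cast Nat.lcm_dvd_mul q m
    rw [DirichletCharacter.mul_def, DirichletCharacter.primitiveCharacter_apply_of_isCoprime _ hl]
    unfold DirichletCharacter.mul
    rw [MulChar.mul_apply, DirichletCharacter.changeLevel_eq_cast_of_dvd' _ _ hl,
      DirichletCharacter.changeLevel_eq_cast_of_dvd' _ _ hl]
  have hcd : (χ.mul ψ).conductor ∣ Nat.lcm q m := DirichletCharacter.conductor_dvd_level _
  have hne : NeZero (Nat.lcm q m) := ⟨Nat.lcm_ne_zero (NeZero.ne q) (NeZero.ne m)⟩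
  have hiff : 11 ∣ (χ.mul ψ).conductor ↔ 11 ∣ m := by
    constructor
    · intro h
      have h1 := (h.trans hcd).trans (Nat.lcm_dvd_mul q m)
      rcases (Nat.Prime.dvd_mul (by norm_num)).1 h1 with h2 | h2
      · exact absurd h2 hqn
      · exact h2
    · intro h
      set X := DirichletCharacter.changeLevel (Nat.dvd_lcm_left q m) χ with hX
      set Ψ := DirichletCharacter.changeLevel (Nat.dvd_lcm_right q m) ψ with hΨ
      have hX2 : X * X = 1 := by
        rw [hX, ← map_mul, ← sq, hχ2, map_one]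
      have e1 : Ψ = X * (X * Ψ) := by rw [← mul_assoc, hX2, one_mul]
      have h1 := DirichletCharacter.conductor_mul_dvd_lcm_conductor X (X * Ψ)
      rw [← e1, hΨ, DirichletCharacter.conductor_changeLevel, hX,
        DirichletCharacter.conductor_changeLevel] at h1
      have hψc : ψ.conductor = m := hψ
      have hχc : χ.conductor = q := hχ
      rw [hψc, hχc] at h1
      have h2 := (h.trans h1).trans (Nat.lcm_dvd_mul _ _)
      rcases (Nat.Prime.dvd_mul (by norm_num)).1 h2 with h3 | h3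
      · exact absurd h3 hqn
      · exact h3
  unfold sg
  by_cases hm : 11 ∣ m
  · rw [if_pos (hiff.2 hm), if_pos hm]
    have h1 := hev (-1) isCoprime_one_left.neg_left isCoprime_one_left.neg_left
    push_cast at h1
    rw [h1, hodd]
    ring
  · rw [if_neg (fun h => hm (hiff.1 h)), if_neg hm]
    have hmu : IsCoprime (11 : ℤ) (m : ℤ) := by
      have h1 : Nat.Coprime 11 m := (Nat.Prime.coprime_iff_not_dvd (by norm_num)).2 hm
      exact_mod_cast Nat.isCoprime_iff_coprime.2 h1
    have h1 := hev (-11) hqu.neg_left hmu.neg_left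
    push_cast at h1
    rw [h1]
    have h2 : χ (-11 : ZMod q) = -1 := by
      rw [show (-11 : ZMod q) = -1 * 11 by ring, map_mul, hodd, h11, mul_one]
    rw [h2]
    ring

end Pool.Agent.Y699.RN
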